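import Pool.Agent.Lib.MP_2fe47b_co.Core

/-!
# Dense Kuramoto networks below minimum degree `3n/4` still synchronize globally

Every graph on `n` vertices with minimum degree at least `(3/4 - 10^(-7)) n` is globally
synchronizing, so the threshold of the problem is strictly smaller than `3/4`.
-/

open Finset

namespace Pool.Agent.Results.MP_2fe47b_co.BelowThreeQuarters

/-- The energy `E(θ) = (1/2) ∑_{i,j} A_{ij} (1 - cos(θ_i - θ_j))` of the Kuramoto model on the
graph `G` with vertex set `Fin n`, a function on the torus `(ℝ/2πℤ)^n`. -/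
noncomputable def energy {n : ℕ} (G : SimpleGraph (Fin n)) [DecidableRel G.Adj]
    (θ : Fin n → Real.Angle) : ℝ :=
  (1 / 2) * ∑ i, ∑ j, G.adjMatrix ℝ i j * (1 - (θ i - θ j).cos)

/-- `G` is globally synchronizing: the local minima of the energy on the torus are exactly the
constant configurations. -/
def GloballySynchronizing {n : ℕ} (G : SimpleGraph (Fin n)) [DecidableRel G.Adj] : Prop :=
  ∀ θ : Fin n → Real.Angle, IsLocalMin (energy G) θ ↔ ∃ c : Real.Angle, ∀ i, θ i = c

/-- Every graph on `n` vertices with minimum degree at least `(3/4 - 10^(-7)) n` is globally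
synchronizing. -/
theorem result (n : ℕ) (G : SimpleGraph (Fin n)) [DecidableRel G.Adj]
    (hδ : (3 / 4 - 1 / 10 ^ 7) * (n : ℝ) ≤ (G.minDegree : ℝ)) : GloballySynchronizing G := by
  intro θ
  constructor
  · intro hloc
    rcases Nat.eq_zero_or_pos n with hn | hn
    · subst hn
      exact ⟨0, fun i => i.elim0⟩
    -- lift to the reals
    have hlift : ∀ i, ∃ x : ℝ, (x : Real.Angle) = θ i := fun i => by
      induction θ i using Real.Angle.induction_on with
      | _ x => exact ⟨x, rfl⟩
    choose ϑ hϑ using hlift
    set A : Fin n → Fin n → ℝ := fun i j => G.adjMatrix ℝ i j with hAdef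
    have hA : ∀ i j, A i j = 0 ∨ A i j = 1 := by
      intro i j
      simp only [hAdef, SimpleGraph.adjMatrix_apply]
      split_ifs
      · right; rfl
      · left; rfl
    have hsym : ∀ i j, A i j = A j i := by
      intro i j
      simp only [hAdef, SimpleGraph.adjMatrix_apply, G.adj_comm]
    have hdeg : ∀ i, (3 / 4 - 1 / 10000000) * (n : ℝ) ≤ ∑ j, A i j := by
      intro i
      have h1 : ∑ j, A i j = G.degree i := by
        simp only [hAdef, SimpleGraph.adjMatrix_apply, Finset.sum_boole]
        rw [← SimpleGraph.card_neighborFinset_eq_degree, SimpleGraph.neighborFinset_eq_filter]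
      rw [h1]
      have h2 : (G.minDegree : ℝ) ≤ G.degree i := by exact_mod_cast G.minDegree_le_degree i
      have h3 : (3 / 4 - 1 / 10000000 : ℝ) = 3 / 4 - 1 / 10 ^ 7 := by norm_num
      rw [h3]
      exact hδ.trans h2
    have hmin : ∀ w : Fin n → ℝ,
        IsLocalMin (Lib.MP_2fe47b_co.phi A (fun i j => ϑ i - ϑ j) (fun i j => w i - w j)) 0 := by
      intro w
      set path : ℝ → (Fin n → Real.Angle) := fun t i => ((ϑ i + t * w i : ℝ) : Real.Angle)
        with hpath
      have hcont : Continuous path := by
        apply continuous_pi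
        intro i
        exact Real.Angle.continuous_coe.comp (by fun_prop)
      have h0 : path 0 = θ := by
        ext i
        simp [hpath, hϑ]
      have hE : ∀ t, energy G (path t) = Lib.MP_2fe47b_co.phi A (fun i j => ϑ i - ϑ j) (fun i j => w i - w j) t := by
        intro t
        unfold energy Lib.MP_2fe47b_co.phi
        congr 1
        refine Finset.sum_congr rfl fun i _ => Finset.sum_congr rfl fun j _ => ?_
        simp only [hpath, hAdef]
        rw [← Real.Angle.coe_sub, Real.Angle.cos_coe]
        congr 3
        ring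
      have hloc' : ∀ᶠ θ' in nhds (path 0), energy G (path 0) ≤ energy G θ' := by
        rw [h0]; exact hloc
      have := (hcont.tendsto 0).eventually hloc'
      simp only [hE] at this
      exact this
    have hsync := Lib.MP_2fe47b_co.sync_of_min A ϑ hA hsym (n : ℝ) (by simp) (by exact_mod_cast hn) hdeg hmin
    refine ⟨θ ⟨0, hn⟩, fun i => ?_⟩
    rw [← hϑ i, ← hϑ ⟨0, hn⟩]
    have h1 := hsync ⟨0, hn⟩ i
    rw [Real.cos_eq_one_iff] at h1
    obtain ⟨k, hk⟩ := h1
    rw [Real.Angle.angle_eq_iff_two_pi_dvd_sub]
    exact ⟨k, by rw [← hk]; ring⟩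
  · rintro ⟨c, hc⟩
    have h0 : energy G θ = 0 := by
      unfold energy
      simp [hc]
    have hnn : ∀ θ', 0 ≤ energy G θ' := by
      intro θ'
      unfold energy
      apply mul_nonneg (by norm_num)
      refine Finset.sum_nonneg fun i _ => Finset.sum_nonneg fun j _ => ?_
      apply mul_nonneg
      · rw [SimpleGraph.adjMatrix_apply]; split_ifs <;> norm_num
      · have : (θ' i - θ' j).cos ≤ 1 := by
          induction (θ' i - θ' j) using Real.Angle.induction_on with
          | _ x => rw [Real.Angle.cos_coe]; exact Real.cos_le_one x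
        linarith
    exact Filter.Eventually.of_forall fun θ' => by rw [h0]; exact hnn θ'

end Pool.Agent.Results.MP_2fe47b_co.BelowThreeQuarters
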